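import Pool.Agent.H624.WS.Stm

set_option autoImplicit false

open Set Filter Topology
open Pool.Agent.H624.WS

namespace Pool.Agent.H928.WS

open scoped Classical in
/-- functionals with prescribed values on a family with a lower `ℓ¹` estimate -/
theorem exists_functional {A X : Type} [NormedAddCommGroup X] [NormedSpace ℝ X] (y : A → X)
    {δ : ℝ} (hδ : 0 < δ)
    (hlow : ∀ (J : Finset A) (a : A → ℝ), δ * ∑ i ∈ J, |a i| ≤ ‖∑ i ∈ J, a i • y i‖)
    (S : A → Prop) :
    ∃ φ : X →L[ℝ] ℝ, ‖φ‖ ≤ 1 ∧ ∀ i, φ (y i) = if S i then δ else 0 := by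
  set L : (A →₀ ℝ) →ₗ[ℝ] X := Finsupp.linearCombination ℝ y with hL
  have hlow' : ∀ a : A →₀ ℝ, δ * ∑ i ∈ a.support, |a i| ≤ ‖L a‖ := by
    intro a
    have := hlow a.support a
    simpa [hL, Finsupp.linearCombination_apply, Finsupp.sum] using this
  have hinj : Function.Injective L := by
    rw [injective_iff_map_eq_zero]
    intro a ha
    have h1 := hlow' a
    rw [ha, norm_zero] at h1
    have h2 : 0 ≤ ∑ i ∈ a.support, |a i| := Finset.sum_nonneg fun i _ => abs_nonneg _
    have h3 : ∑ i ∈ a.support, |a i| = 0 := by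
      by_contra hne
      have : 0 < ∑ i ∈ a.support, |a i| := lt_of_le_of_ne h2 (Ne.symm hne)
      have := mul_pos hδ this
      linarith
    ext i
    by_contra hi
    have hi' : a i ≠ 0 := by simpa using hi
    have h4 := (Finset.sum_eq_zero_iff_of_nonneg (fun i _ => abs_nonneg (a i))).1 h3 i
      (Finsupp.mem_support_iff.2 hi')
    exact hi' (abs_eq_zero.1 h4)
  set g : (A →₀ ℝ) →ₗ[ℝ] ℝ := Finsupp.linearCombination ℝ (fun i => if S i then δ else (0:ℝ)) with hg
  have hgle : ∀ a : A →₀ ℝ, |g a| ≤ ‖L a‖ := by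
    intro a
    refine le_trans ?_ (hlow' a)
    rw [hg, Finsupp.linearCombination_apply, Finsupp.sum, Finset.mul_sum]
    refine (Finset.abs_sum_le_sum_abs _ _).trans (Finset.sum_le_sum fun i _ => ?_)
    rw [smul_eq_mul, abs_mul, mul_comm]
    refine mul_le_mul_of_nonneg_right ?_ (abs_nonneg _)
    split_ifs
    · exact (abs_of_pos hδ).le
    · rw [abs_zero]; exact hδ.le
  let E := LinearEquiv.ofInjective L hinj
  let f0 : LinearMap.range L →ₗ[ℝ] ℝ := g.comp E.symm.toLinearMap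
  have hf0 : ∀ v : LinearMap.range L, ‖f0 v‖ ≤ 1 * ‖v‖ := by
    intro v
    have h1 := hgle (E.symm v)
    have h2 : L (E.symm v) = (v : X) := by
      have := E.apply_symm_apply v
      have h3 := congrArg (Subtype.val) this
      simpa [E] using h3
    rw [h2] at h1
    simpa [f0, Real.norm_eq_abs] using h1
  let f : LinearMap.range L →L[ℝ] ℝ := f0.mkContinuous 1 hf0
  obtain ⟨φ, hφ, hn⟩ := exists_extension_norm_eq (LinearMap.range L) f
  refine ⟨φ, ?_, fun i => ?_⟩
  · rw [hn]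
    exact LinearMap.mkContinuous_norm_le _ zero_le_one _
  · have h1 : L (Finsupp.single i 1) = y i := by simp [hL]
    have h2 : (E (Finsupp.single i 1) : X) = y i := by
      rw [LinearEquiv.ofInjective_apply, h1]
    have h3 := hφ (E (Finsupp.single i 1))
    rw [h2] at h3
    rw [h3]
    have h4 : f (E (Finsupp.single i 1)) = g (Finsupp.single i 1) := by
      simp [f, f0]
    rw [h4, hg]
    simp

end Pool.Agent.H928.WS

namespace Pool.Agent.H624.WS

theorem sSPL : S_SPL := by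
  classical
  intro 𝒮 hS X _ _ hX hcomp
  obtain ⟨A, y, δ, hcard, hδ, -, hlow⟩ := hX
  obtain ⟨e⟩ := Cardinal.eq.1 hcard
  have key := fun n : ℕ => Pool.Agent.H928.WS.exists_functional y hδ hlow
    (fun i => n ∈ (e i : Set ℕ))
  choose φ hφ1 hφ2 using key
  obtain ⟨ψ, -, k, hk, hlim⟩ := hcomp φ hφ1
  have hM : (range k).Infinite := infinite_range_of_injective hk.injective
  obtain ⟨S, hSm, h1, h2⟩ := hS _ hM
  set i := e.symm ⟨S, hSm⟩ with hi
  have hval : ∀ n, φ (k n) (y i) = if k n ∈ S then δ else 0 := by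
    intro n
    rw [hφ2]
    simp [hi]
  have hl := hlim (y i)
  rw [Metric.tendsto_atTop] at hl
  obtain ⟨N, hN⟩ := hl (δ / 3) (by positivity)
  have hfin : (k '' Iio N).Finite := (Set.finite_Iio N).image k
  obtain ⟨m1, hm1, hm1'⟩ := (h1.sdiff hfin).nonempty
  obtain ⟨m2, hm2, hm2'⟩ := (h2.sdiff hfin).nonempty
  obtain ⟨n1, rfl⟩ := hm1.1
  obtain ⟨n2, rfl⟩ := hm2.1
  have hn1 : N ≤ n1 := by
    by_contra h
    exact hm1' ⟨n1, not_le.1 h, rfl⟩
  have hn2 : N ≤ n2 := by
    by_contra h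
    exact hm2' ⟨n2, not_le.1 h, rfl⟩
  have e1 := hN n1 hn1
  have e2 := hN n2 hn2
  rw [hval, if_pos hm1.2, Real.dist_eq] at e1
  rw [hval, if_neg hm2.2, Real.dist_eq] at e2
  rw [abs_lt] at e1 e2
  linarith [e1.1, e1.2, e2.1, e2.2]

end Pool.Agent.H624.WS
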